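import Pool.Agent.V5helper49.PTR.Stm

set_option autoImplicit false

namespace Pool.Agent.V5helper83.PTR

open Finset Filter
open Pool.Agent.V5helper42.RS (W model)
open Pool.Agent.V5helper49.PTR

theorem t_STEP (hADM : S_ADM) (hCT : S_CT) : S_STEP := by
  classical
  intro s hs
  obtain ⟨β, hβ0, hβ1, NA, hA⟩ := hADM
  have hs0 : (2 : ℝ) ≤ s := by exact_mod_cast hs
  have hs1 : (0 : ℝ) < (s : ℝ) + 1 := by positivity
  have hκ4 : β / (4 * ((s : ℝ) + 1)) ≤ 1 / 4 := by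
    rw [div_le_iff₀ (by positivity)]
    nlinarith
  refine ⟨β / (4 * (s + 1)), by positivity, hκ4.trans (by norm_num), ?_⟩
  intro a hReg hUni
  obtain ⟨NC, hC⟩ := hCT s hs (model a) hReg
  have hcast : Tendsto (fun N : ℕ => (N : ℝ)) atTop atTop := tendsto_natCast_atTop_atTop
  have hexpT : ∀ b : ℝ, 0 < b → Tendsto (fun N : ℕ => Real.exp (b * N)) atTop atTop := fun b hb =>
    Real.tendsto_exp_atTop.comp (hcast.const_mul_atTop hb)
  have e1 : ∀ᶠ N : ℕ in atTop, ((N : ℝ) ^ (s + 1) + 1 ≤ Real.exp (β * N)) := by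
    have h1 := (isLittleO_pow_exp_pos_mul_atTop (k := s + 1) hβ0).def (c := 1 / 2) (by norm_num)
    have h2 := hcast.eventually h1
    filter_upwards [h2, (hexpT β hβ0).eventually_ge_atTop 2] with N h3 h4
    rw [Real.norm_of_nonneg (by positivity), Real.norm_of_nonneg (by positivity)] at h3
    linarith
  have e2 : ∀ᶠ N : ℕ in atTop, (3 : ℝ) ≤ Real.exp (β / 4 * N) :=
    (hexpT (β / 4) (by positivity)).eventually_ge_atTop 3
  have e3 := (Real.tendsto_exp_atTop.comp hcast).eventually hUni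
  obtain ⟨N₀, hN₀⟩ := eventually_atTop.1 (e1.and (e2.and (e3.and ((eventually_ge_atTop NA).and
    ((eventually_ge_atTop NC).and (eventually_ge_atTop (4 * 2 ^ s + 2 + 16)))))))
  refine ⟨N₀, fun N hN F hF hcard hAdm => ?_⟩
  obtain ⟨h1, h2, h3, h4, h5, h6⟩ := hN₀ N hN
  have hFm : ∀ k ∈ F, 1 ≤ k ∧ k ≤ N := fun k hk => Finset.mem_Icc.1 (hF hk)
  obtain ⟨T, hT⟩ : ∃ T : Finset ℕ, T = F.image (fun k => N - k) := ⟨_, rfl⟩
  have hTc : (T.card : ℝ) ≤ Real.log (Real.exp N) ^ (1 / 10 : ℝ) := by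
    rw [Real.log_exp]
    refine le_trans ?_ hcard
    rw [hT]
    exact_mod_cast Finset.card_image_le
  have hTs : T ⊆ range (N + 1) := by
    intro t ht
    rw [hT] at ht
    obtain ⟨k, hk, rfl⟩ := Finset.mem_image.1 ht
    exact Finset.mem_range.2 (by omega)
  have hTA : Adm T := by
    intro p hp
    obtain ⟨b, hb, hm⟩ := hAdm p hp
    refine ⟨(N + (p - b)) % p, Nat.mod_lt _ hp.pos, fun t ht he => ?_⟩
    rw [hT] at ht
    obtain ⟨k, hk, rfl⟩ := Finset.mem_image.1 ht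
    have hk2 := (hFm k hk).2
    apply hm k hk
    have h7 : (N - k) ≡ N + (p - b) [MOD p] := by
      have : (N - k) % p = (N + (p - b)) % p := he
      exact this
    have h8 : (N - k) + (k + b) ≡ (N + (p - b)) + (k + b) [MOD p] := h7.add_right _
    have h9 : (N - k) + (k + b) = N + b := by omega
    have h10 : (N + (p - b)) + (k + b) = N + (p + k) := by omega
    rw [h9, h10] at h8
    have h11 : b ≡ p + k [MOD p] := Nat.ModEq.add_left_cancel' N h8
    have h12 : b % p = k % p := by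
      have h13 : b % p = (p + k) % p := h11
      rw [h13, Nat.add_mod_left]
    rw [← h12, Nat.mod_eq_of_lt hb]
  obtain ⟨n, hn1, hn2, hn3⟩ := h3 N T (by
    show (N : ℝ) ≤ Real.log (Real.exp N)
    rw [Real.log_exp]) hTs hTc hTA
  have hn1 : Real.exp N < n := hn1
  have hn2 : (n : ℝ) ≤ 4 * Real.exp N := hn2
  have h18 : 18 ≤ N := by omega
  have hNr : (18 : ℝ) ≤ N := by exact_mod_cast h18
  have hep : 0 < Real.exp (N : ℝ) := Real.exp_pos _
  have hNe : (N : ℝ) + 1 ≤ Real.exp N := Real.add_one_le_exp _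
  obtain ⟨N', hN'⟩ : ∃ N' : ℕ, N' = n + N := ⟨_, rfl⟩
  have hN'r : (N' : ℝ) = n + N := by rw [hN']; push_cast; ring
  have hexp : Real.exp N ≤ (N' : ℝ) := by rw [hN'r]; linarith
  have hN1 : (1 : ℝ) ≤ N' := by linarith
  have hNN' : N ≤ N' := by omega
  have hlog : Real.log N' ≤ 2 * N := by
    rw [Real.log_le_iff_le_exp (by linarith)]
    have h7 : Real.exp (2 * (N : ℝ)) = Real.exp N * Real.exp N := by
      rw [← Real.exp_add]; congr 1; ring
    rw [h7, hN'r]
    nlinarith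
  have hpow : ∀ b : ℝ, 0 ≤ b → Real.exp (b * N) ≤ (N' : ℝ) ^ b := by
    intro b hb
    have : Real.exp (b * N) = (Real.exp N) ^ b := by rw [← Real.exp_mul]; congr 1; ring
    rw [this]
    exact Real.rpow_le_rpow hep.le hexp hb
  have hkey : 4 * (Real.log N') ^ s + 2 * N ≤ (N : ℝ) ^ (s + 1) := by
    have a1 : (Real.log N') ^ s ≤ (2 * N : ℝ) ^ s := pow_le_pow_left₀ (Real.log_nonneg hN1) hlog s
    have a2 : (N : ℝ) ≤ (N : ℝ) ^ s := le_self_pow₀ (by linarith) (by omega)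
    have a3 : ((4 * 2 ^ s + 2 : ℕ) : ℝ) ≤ N := by exact_mod_cast (by omega : 4 * 2 ^ s + 2 ≤ N)
    push_cast at a3
    rw [mul_pow] at a1
    calc 4 * (Real.log N') ^ s + 2 * N ≤ 4 * (2 ^ s * (N : ℝ) ^ s) + 2 * (N : ℝ) ^ s := by linarith
      _ = (4 * 2 ^ s + 2) * (N : ℝ) ^ s := by ring
      _ ≤ N * (N : ℝ) ^ s := mul_le_mul_of_nonneg_right a3 (by positivity)
      _ = _ := by ring
  obtain ⟨X, hX⟩ : ∃ X : ℕ, X = ⌊(N' : ℝ) ^ β⌋₊ := ⟨_, rfl⟩
  have hX2 : (X : ℝ) ≤ (N' : ℝ) ^ β := by rw [hX]; exact Nat.floor_le (by positivity)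
  have hX3 : (N' : ℝ) ^ β - 1 ≤ X := by
    rw [hX]; linarith [Nat.lt_floor_add_one ((N' : ℝ) ^ β)]
  have hX1 : (N : ℝ) ^ (s + 1) ≤ X := by linarith [hpow β hβ0.le]
  have hNs : (N : ℝ) ≤ (N : ℝ) ^ (s + 1) := le_self_pow₀ (by linarith) (by omega)
  have hNX : N ≤ X := by exact_mod_cast hNs.trans hX1
  have hXN' : X ≤ N' := by
    have h7 : (N' : ℝ) ^ β ≤ (N' : ℝ) ^ (1 : ℝ) := Real.rpow_le_rpow_of_exponent_le hN1 (by linarith)
    rw [Real.rpow_one] at h7
    exact_mod_cast hX2.trans h7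
  obtain ⟨G, hG⟩ : ∃ G : Finset ℕ, G = (Ioc N X).filter (fun k => N' - k ∈ model a) := ⟨_, rfl⟩
  have hGm : ∀ k, k ∈ G ↔ (N < k ∧ k ≤ X) ∧ N' - k ∈ model a := fun k => by
    rw [hG, Finset.mem_filter, Finset.mem_Ioc]
  have hcount : ∀ x : ℕ, (N : ℝ) ^ (s + 1) ≤ x → x ≤ X →
      Real.sqrt x / 2 ≤ (((Ioc N x).filter (fun k => N' - k ∈ model a)).card : ℝ) := by
    intro x hx1 hx2
    have h7 := hC N' (h5.trans hNN') N x (hkey.trans hx1) (by
      calc (x : ℝ) ≤ X := by exact_mod_cast hx2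
        _ ≤ (N' : ℝ) ^ β := hX2
        _ ≤ (N' : ℝ) ^ (1 / 12 : ℝ) := Real.rpow_le_rpow_of_exponent_le hN1 hβ1)
    convert h7
  have hmod : ∀ k ∈ F ∪ G, N' - k ∈ model a := by
    intro k hk
    rcases Finset.mem_union.1 hk with hk | hk
    · have h7 := hn3 (N - k) (by rw [hT]; exact Finset.mem_image_of_mem _ hk)
      have h8 : N' - k = n + (N - k) := by have := (hFm k hk).2; omega
      rw [h8]
      exact h7
    · exact ((hGm k).1 hk).2
  have hbd : ∀ k ∈ F ∪ G, 1 ≤ k ∧ k ≤ X := by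
    intro k hk
    rcases Finset.mem_union.1 hk with hk | hk
    · have := hFm k hk
      omega
    · have := (hGm k).1 hk
      omega
  have hfour : (N' : ℝ) ^ (β / 4) ≤ ((F ∪ G).card : ℝ) := by
    have h7 := hcount X hX1 le_rfl
    have h8 : (((Ioc N X).filter (fun k => N' - k ∈ model a)).card : ℝ) ≤ ((F ∪ G).card : ℝ) := by
      rw [← hG]
      exact_mod_cast Finset.card_le_card Finset.subset_union_right
    refine le_trans ?_ (h7.trans h8)
    obtain ⟨y, hy⟩ : ∃ y : ℝ, y = (N' : ℝ) ^ (β / 4) := ⟨_, rfl⟩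
    have hy3 : 3 ≤ y := by rw [hy]; exact h2.trans (hpow (β / 4) (by positivity))
    have hy4 : (N' : ℝ) ^ β = y ^ 4 := by
      rw [hy, ← Real.rpow_natCast, ← Real.rpow_mul (by linarith)]
      congr 1
      push_cast
      ring
    rw [← hy]
    have h9 : 2 * y ≤ Real.sqrt X := by
      apply Real.le_sqrt_of_sq_le
      rw [hy4] at hX3
      nlinarith [mul_self_nonneg (y ^ 2 - 9), mul_self_nonneg (y - 3)]
    linarith
  have hκs : β / (4 * ((s : ℝ) + 1)) * ((s : ℝ) + 1) = β / 4 := by field_simp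
  refine ⟨N', F ∪ G, ?_, ?_, ?_, ?_, Finset.subset_union_left, ?_, hmod, ?_, ?_⟩
  · have : (0 : ℝ) < n := hep.trans hn1
    have : 0 < n := by exact_mod_cast this
    omega
  · intro k hk
    have := hbd k hk
    exact Finset.mem_Icc.2 ⟨this.1, this.2.trans hXN'⟩
  · have h7 : (F ∪ G) ⊆ Icc 1 X := fun k hk => Finset.mem_Icc.2 (hbd k hk)
    have h8 := Finset.card_le_card h7
    rw [Nat.card_Icc] at h8
    have h9 : ((F ∪ G).card : ℝ) ≤ X := by exact_mod_cast (by omega : (F ∪ G).card ≤ X)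
    exact h9.trans (hX2.trans (Real.rpow_le_rpow_of_exponent_le hN1 (by linarith)))
  · refine hA N' (h4.trans hNN') a (F ∪ G) (fun k hk => ⟨(hbd k hk).1, ?_⟩) hmod
    have : (k : ℝ) ≤ X := by exact_mod_cast (hbd k hk).2
    exact this.trans hX2
  · intro k hk hkN
    rcases Finset.mem_union.1 hk with hk | hk
    · exact hk
    · have := (hGm k).1 hk
      omega
  · rw [hκs]
    exact hfour
  · intro x hx1 hx2
    by_cases hx : x ≤ X
    · have h7 := hcount x hx1 hx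
      have h8 : (((Ioc N x).filter (fun k => N' - k ∈ model a)).card : ℝ) ≤
          (((F ∪ G).filter (fun k => k ≤ x)).card : ℝ) := by
        exact_mod_cast Finset.card_le_card (by
          intro k hk
          rw [Finset.mem_filter, Finset.mem_Ioc] at hk
          rw [Finset.mem_filter, Finset.mem_union]
          exact ⟨Or.inr ((hGm k).2 ⟨⟨hk.1.1, hk.1.2.trans hx⟩, hk.2⟩), hk.1.2⟩)
      refine le_trans ?_ (h7.trans h8)
      have hxr : (16 : ℝ) ≤ x := by linarith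
      have h9 : (x : ℝ) ^ (β / (4 * ((s : ℝ) + 1))) ≤ (x : ℝ) ^ (1 / 4 : ℝ) :=
        Real.rpow_le_rpow_of_exponent_le (by linarith) hκ4
      refine h9.trans ?_
      have h10 : (2 : ℝ) ≤ (x : ℝ) ^ (1 / 4 : ℝ) := by
        have h11 : (16 : ℝ) ^ (1 / 4 : ℝ) = 2 := by
          rw [show (16 : ℝ) = 2 ^ (4 : ℝ) by norm_num, ← Real.rpow_mul (by norm_num)]
          norm_num
        rw [← h11]
        exact Real.rpow_le_rpow (by norm_num) hxr (by norm_num)
      have h12 : Real.sqrt x = (x : ℝ) ^ (1 / 4 : ℝ) * (x : ℝ) ^ (1 / 4 : ℝ) := by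
        rw [Real.sqrt_eq_rpow, ← Real.rpow_add (by linarith)]
        norm_num
      rw [h12]
      nlinarith
    · have h7 : (F ∪ G).filter (fun k => k ≤ x) = F ∪ G :=
        Finset.filter_true_of_mem fun k hk => by have := (hbd k hk).2; omega
      rw [h7]
      refine le_trans ?_ hfour
      have hx1' : (1 : ℝ) ≤ x := by linarith
      calc (x : ℝ) ^ (β / (4 * ((s : ℝ) + 1))) ≤ (N' : ℝ) ^ (β / (4 * ((s : ℝ) + 1))) :=
            Real.rpow_le_rpow (by linarith) (by exact_mod_cast hx2) (by positivity)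
        _ ≤ (N' : ℝ) ^ (β / 4) := Real.rpow_le_rpow_of_exponent_le hN1 (by
            rw [div_le_div_iff_of_pos_left hβ0 (by positivity) (by norm_num)]
            nlinarith)

end Pool.Agent.V5helper83.PTR
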